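import Pool.Agent.K4H25.FH.Main

/-!
# Uniform trace bounds for shifted fractional Gaussian noise covariance products

MP_0e0306_pr, Q1: for every Hurst parameter `0 < H < 1` the traces of `A_k` and of `A_k A_l` are bounded,
even by absolute constants: `|Tr(A_k)| ≤ 4` and `|Tr(A_k A_l)| ≤ 9` for all `N ≥ 1` and `1 ≤ k, l ≤ N`.

Proof. A Toeplitz covariance `g` with `g j ≤ 0` for `j ≠ 0` and positive row sums satisfies a comparison
principle: a row sum is of the form `φ i + φ n`, and if `n (-g n) ≤ C φ (n - 1)` then comparison with the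
constant function `C` gives `-C ≤ Tr(A_k) ≤ 0` and `-2 C ≤ Tr(A_k A_l) ≤ C`. For `H ≤ 1/2` this applies to the
noise itself, with `C = 1`. For `H > 1/2` it applies, with `C = 3`, to the differences
`Z_j = X_{j+1} - X_j` of the noise `X`, whose covariance is
`δ j = 2 γ j - γ (j + 1) - γ (j - 1)`, with `φ n = γ n - γ (n + 1)`. Now `A_k` is the matrix of the compression
to the span of `X_1, ..., X_N` of the backward shift by `k`, a contraction, and this span is the orthogonal
sum of the span of `Z_1, ..., Z_{N-1}` and of the line of the best linear unbiased estimator of the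
mean (`Σ⁻¹ = D Σ_Z⁻¹ Dᵀ + u uᵀ / uᵀ Σ u`, `Σ u = (1, ..., 1)`). So the traces for `X` and `Z` differ by at most `1`
and `3`. The covariance matrix of `X` is positive definite by Pólya's criterion, as `γ` is nonnegative,
decreasing and convex for `H > 1/2`.
-/

set_option autoImplicit false

namespace Pool.Agent.Results.MP_0e0306_pr.UniformTraceBounds

/-- The autocovariance `γ_H` of fractional Gaussian noise with Hurst parameter `H`. -/
noncomputable def gamma (H : ℝ) (j : ℤ) : ℝ :=
  (|(j : ℝ) + 1| ^ (2 * H) - 2 * |(j : ℝ)| ^ (2 * H) + |(j : ℝ) - 1| ^ (2 * H)) / 2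

/-- The covariance matrix `Σ_{1,M}` of `M` consecutive unit increments, `(γ_H(i - j))`. -/
noncomputable def covariance (H : ℝ) (M : ℕ) : Matrix (Fin M) (Fin M) ℝ :=
  Matrix.of fun i j => gamma H (((i : ℕ) : ℤ) - ((j : ℕ) : ℤ))

/-- The `N × 2N` matrix `P_k = (0_{N × k}, I_N, 0_{N × (N-k)})`. -/
def P (N k : ℕ) : Matrix (Fin N) (Fin (2 * N)) ℝ :=
  Matrix.of fun i m => if (m : ℕ) = (i : ℕ) + k then 1 else 0

/-- `A_k = Σ_{1,N}⁻¹ P_k Σ_{1,2N} P_0ᵀ`. -/
noncomputable def A (H : ℝ) (N k : ℕ) : Matrix (Fin N) (Fin N) ℝ :=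
  (covariance H N)⁻¹ * (P N k * covariance H (2 * N) * (P N 0).transpose)

/-- **Uniform trace bounds for shifted fractional Gaussian noise covariance products.** For every `H` in
`(0, 1)`, every `N` and all `k`, `l` in `{1, ..., N}` the covariance matrix is invertible,
`|Tr(A_k)| ≤ 4` and `|Tr(A_k A_l)| ≤ 9`. -/
theorem result (H : ℝ) (h0 : 0 < H) (h1 : H < 1) (N k l : ℕ) (hk1 : 1 ≤ k) (hk : k ≤ N)
    (hl1 : 1 ≤ l) (hl : l ≤ N) :
    IsUnit (covariance H N) ∧ |(A H N k).trace| ≤ 4 ∧ |(A H N k * A H N l).trace| ≤ 9 := by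
  rcases le_or_gt H (1 / 2) with h | h
  · have e1 := Pool.Agent.K4H30.FN.sig_isUnit h0 h N
    have e2 : -1 ≤ (A H N k).trace ∧ (A H N k).trace ≤ 0 := by
      change -1 ≤ (Pool.Agent.K4H30.FN.A H N k).trace ∧ (Pool.Agent.K4H30.FN.A H N k).trace ≤ 0
      rw [Pool.Agent.K4H30.FN.trace_A h0 h hk1 hk]
      have h2 := Pool.Agent.K4H30.FN.sum_diag h0 h N k
      have h3 : 0 ≤ ∑ j ∈ Finset.range N,
          (if j < k then Pool.Agent.K4H30.FN.U H N (k - j) j else 0) := by
        apply Finset.sum_nonneg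
        intro j _
        split_ifs with h'
        · exact Pool.Agent.K4H30.FN.U_nonneg h0 h N (by omega) j
        · exact le_rfl
      constructor <;> linarith
    have e3 : -2 ≤ (A H N k * A H N l).trace ∧ (A H N k * A H N l).trace ≤ 1 :=
      Pool.Agent.K4H30.FN.trace_mul h0 h hk1 hk hl1 hl
    refine ⟨e1, ?_, ?_⟩
    · rw [abs_le]
      constructor <;> linarith [e2.1, e2.2]
    · rw [abs_le]
      constructor <;> linarith [e3.1, e3.2]
  · have hA : ∀ m, m ≤ N → A H N m = (Pool.Agent.K4H25.FH.Sg (Pool.Agent.K4H25.FH.gam H) N)⁻¹ *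
        Pool.Agent.K4H25.FH.Sh (Pool.Agent.K4H25.FH.gam H) N m := by
      intro m hm
      have hS : P N m * covariance H (2 * N) * (P N 0).transpose =
          Pool.Agent.K4H25.FH.Sh (Pool.Agent.K4H25.FH.gam H) N m := by
        ext i j
        exact Pool.Agent.K4H30.FN.shift_apply hm i j
      unfold A
      rw [hS]
      rfl
    have e := Pool.Agent.K4H25.FH.large h h1 (hk1.trans hk) hk1 hl1
    rw [hA k hk, hA l hl]
    exact e

end Pool.Agent.Results.MP_0e0306_pr.UniformTraceBounds
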